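import Pool.Agent.Helper48.QL.L5
import Pool.Agent.Helper75.TW.A3

/-!
# QL-L5: the moment over the frames and the moment over the coordinates
-/

open MeasureTheory Real Set Filter Topology

set_option autoImplicit false

namespace Pool.Agent.Helper60.QL

open Pool.Agent.Helper22.AE
open Pool.Agent.Helper92.GC (dt tp Tq uu tt arc dd)
open Pool.Agent.Helper75.TW (m20 m20_congr m20_cont_coef)
open Pool.Agent.Helper60.LT (Fr Tf xf yf df vf fr)

theorem ee_meas77 : Measurable ee := by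
  unfold ee
  fun_prop

/-- the twentieth moment is a measurable function of measurable coefficients -/
theorem m20_meas77 {X : Type*} [MeasurableSpace X] (S : Finset (ℤ × ℤ)) (a : X → ℤ × ℤ → ℂ) (h : ∀ k, Measurable (fun x => a x k)) :
    Measurable (fun x => m20 S (a x)) := by
  have h1 : Continuous (fun b : ℤ × ℤ → ℂ => m20 S b) := m20_cont_coef S (fun b => b) fun k _ => continuous_apply k
  exact h1.measurable.comp (measurable_pi_iff.2 h)

theorem pA_meas77 (τ : ℝ) : Measurable (fun A : R3 => pA A τ) := by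
  unfold pA TA xA sA
  fun_prop

theorem qf_meas77 (t₀ : ℝ) (S : Finset (ℤ × ℤ)) : Measurable (fun A : R3 => qf t₀ S A) := by
  unfold qf
  refine m20_meas77 S _ fun k => ?_
  exact ee_meas77.comp ((pA_meas77 _).const_mul _)

theorem df_ne77 {B X : ℝ} (hX : 0 < X) {f : Fr} (hf : f ∈ UB B X) : df f ≠ 0 := by
  intro h
  have h1 := hf.2.2.2.2
  rw [h, abs_zero, mul_zero] at h1
  nlinarith

theorem ff_eq77 {B X t₀ : ℝ} {S : Finset (ℤ × ℤ)} (hX : 0 < X) (hS : ∀ k ∈ S, 0 < k.1) {f : Fr} (hf : f ∈ UB B X) :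
    ff S f = ENNReal.ofReal (qf t₀ S (Af t₀ f)) := by
  unfold ff qf
  congr 1
  refine m20_congr fun k hk => ?_
  rw [nm_frame t₀ (df_ne77 hX hf) (hS k hk)]

theorem II_eq77 {B X t₀ : ℝ} {S : Finset (ℤ × ℤ)} (hX : 0 < X) (hS : ∀ k ∈ S, 0 < k.1) :
    II B X S = ∫⁻ f in UB B X, ENNReal.ofReal (qf t₀ S (Af t₀ f)) :=
  setLIntegral_congr_fun (UB_meas B X) fun _ hf => ff_eq77 hX hS hf

/-- the moment over the frames is comparable with the moment over the coordinates -/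
theorem II_up {B : ℝ} (hB : 1 ≤ B) : ∃ B' C : ℝ, B ≤ B' ∧ 1 ≤ C ∧ ∀ (X t₀ : ℝ) (S : Finset (ℤ × ℤ)), 0 < X → |t₀| ≤ 3 → (∀ k ∈ S, 0 < k.1) →
    II B X S ≤ ENNReal.ofReal (C * X) * ∫⁻ A in OM B' X, ENNReal.ofReal (qf t₀ S A) := by
  obtain ⟨B', C, h1, h2, h3⟩ := cov_up hB
  refine ⟨B', C, h1, h2, fun X t₀ S hX ht hS => ?_⟩
  rw [II_eq77 hX hS]
  exact h3 X t₀ (fun A => ENNReal.ofReal (qf t₀ S A)) hX ht (qf_meas77 t₀ S).ennreal_ofReal

theorem II_lo {B : ℝ} (hB : 1 ≤ B) : ∃ B' C : ℝ, B ≤ B' ∧ 1 ≤ C ∧ ∀ (X t₀ : ℝ) (S : Finset (ℤ × ℤ)), 0 < X → |t₀| ≤ 3 → (∀ k ∈ S, 0 < k.1) →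
    ENNReal.ofReal X * ∫⁻ A in OM B X, ENNReal.ofReal (qf t₀ S A) ≤ ENNReal.ofReal C * II B' X S := by
  obtain ⟨B', C, h1, h2, h3⟩ := cov_lo hB
  refine ⟨B', C, h1, h2, fun X t₀ S hX ht hS => ?_⟩
  rw [II_eq77 hX hS]
  exact h3 X t₀ (fun A => ENNReal.ofReal (qf t₀ S A)) hX ht (qf_meas77 t₀ S).ennreal_ofReal

end Pool.Agent.Helper60.QL
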